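import Mathlib

namespace Pool.Agent.Work.MP_918ecd_co

open Finset

/-- Weighted count of the functions whose values outside a set of indices lie in a light set
determined by the values on that set of indices. -/
lemma fiber_bound {ι V : Type*} [Fintype ι] [DecidableEq ι] [Fintype V] [DecidableEq V]
    (w : V → ℝ) (hw : ∀ v, 0 ≤ w v) (p : ι → Prop) [DecidablePred p]
    (U : ({i // p i} → V) → Finset V) (θ : ℝ) (hθ : ∀ g, ∑ v ∈ U g, w v ≤ θ) :
    ∑ f : ι → V, (if ∀ i : {i // ¬ p i}, f i ∈ U (fun j => f j) then ∏ i, w (f i) else 0)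
      ≤ (∑ v, w v) ^ (Fintype.card {i // p i}) * θ ^ (Fintype.card {i // ¬ p i}) := by
  classical
  rw [← (Equiv.piEquivPiSubtypeProd p (fun _ => V)).symm.sum_comp, Fintype.sum_prod_type]
  have key : ∀ (g : {i // p i} → V) (h : {i // ¬ p i} → V),
      (if ∀ i : {i // ¬ p i}, ((Equiv.piEquivPiSubtypeProd p (fun _ => V)).symm (g, h)) i ∈
          U (fun j => ((Equiv.piEquivPiSubtypeProd p (fun _ => V)).symm (g, h)) j)
        then ∏ i, w (((Equiv.piEquivPiSubtypeProd p (fun _ => V)).symm (g, h)) i) else 0)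
      = (∏ i, w (g i)) * ∏ i, (if h i ∈ U g then w (h i) else 0) := by
    intro g h
    have h1 : (fun j : {i // p i} =>
        ((Equiv.piEquivPiSubtypeProd p (fun _ => V)).symm (g, h)) j) = g := by
      funext j
      simp [Equiv.piEquivPiSubtypeProd, j.2]
    have h2 : ∀ i : {i // ¬ p i},
        ((Equiv.piEquivPiSubtypeProd p (fun _ => V)).symm (g, h)) i = h i := by
      intro i
      simp [Equiv.piEquivPiSubtypeProd, i.2]
    rw [h1]
    have h3 : ∏ i, w (((Equiv.piEquivPiSubtypeProd p (fun _ => V)).symm (g, h)) i)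
        = (∏ i, w (g i)) * ∏ i, w (h i) := by
      rw [← Fintype.prod_subtype_mul_prod_subtype p]
      congr 1
      · exact Finset.prod_congr rfl fun i _ => congrArg w (congrFun h1 i)
      · refine Finset.prod_congr rfl fun i _ => ?_
        rw [h2]
    rw [h3]
    by_cases hc : ∀ i : {i // ¬ p i}, h i ∈ U g
    · rw [if_pos (fun i => by rw [h2]; exact hc i)]
      congr 1
      refine Finset.prod_congr rfl fun i _ => ?_
      rw [if_pos (hc i)]
    · rw [if_neg (fun hh => hc (fun i => by have := hh i; rwa [h2] at this))]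
      push Not at hc
      obtain ⟨i, hi⟩ := hc
      rw [Finset.prod_eq_zero (Finset.mem_univ i) (by rw [if_neg hi]), mul_zero]
  simp_rw [key]
  have hθ0 : ∀ g, 0 ≤ ∑ v ∈ U g, w v := fun g => Finset.sum_nonneg fun v _ => hw v
  calc ∑ g : {i // p i} → V, ∑ h : {i // ¬ p i} → V,
        (∏ i, w (g i)) * ∏ i, (if h i ∈ U g then w (h i) else 0)
      = ∑ g : {i // p i} → V, (∏ i, w (g i)) * (∑ v ∈ U g, w v) ^ (Fintype.card {i // ¬ p i}) := by
        refine Finset.sum_congr rfl fun g _ => ?_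
        rw [← Finset.mul_sum]
        congr 1
        have := Finset.prod_univ_sum (R := ℝ) (fun _ : {i // ¬ p i} => (Finset.univ : Finset V))
          (fun _ v => if v ∈ U g then w v else 0)
        rw [Fintype.piFinset_univ] at this
        rw [← this, Finset.prod_const, Finset.card_univ]
        congr 1
        rw [Finset.sum_ite_mem, Finset.univ_inter]
    _ ≤ ∑ g : {i // p i} → V, (∏ i, w (g i)) * θ ^ (Fintype.card {i // ¬ p i}) := by
        refine Finset.sum_le_sum fun g _ => ?_
        exact mul_le_mul_of_nonneg_left (pow_le_pow_left₀ (hθ0 g) (hθ g) _)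
          (Finset.prod_nonneg fun i _ => hw _)
    _ = (∑ v, w v) ^ (Fintype.card {i // p i}) * θ ^ (Fintype.card {i // ¬ p i}) := by
        rw [← Finset.sum_mul]
        congr 1
        have := Finset.prod_univ_sum (R := ℝ) (fun _ : {i // p i} => (Finset.univ : Finset V))
          (fun _ v => w v)
        rw [Fintype.piFinset_univ] at this
        rw [← this, Finset.prod_const, Finset.card_univ]

/-- If every function `f : Fin (8 k) → V` admits a labelling of the indices by three labels such that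
at least `3 k` indices have the last label, and the values there lie in a set of weight at most a
twentieth of the total determined by the labelling and the other values, then the total weight is
not positive (`k ≥ 1`). -/
lemma count_contra {V : Type*} [Fintype V] [DecidableEq V] (w : V → ℝ) (hw : ∀ v, 0 ≤ w v)
    (k : ℕ) (hk : 0 < k)
    (U : (τ : Fin (8 * k) → Fin 3) → ({i // τ i ≠ 2} → V) → Finset V)
    (hU : ∀ τ g, ∑ v ∈ U τ g, w v ≤ (∑ v, w v) / 20)
    (hcov : ∀ f : Fin (8 * k) → V, ∃ τ : Fin (8 * k) → Fin 3,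
      3 * k ≤ Fintype.card {i // ¬ (τ i ≠ 2)} ∧
      ∀ i : {i // ¬ (τ i ≠ 2)}, f i ∈ U τ (fun j => f j)) :
    ∑ v, w v ≤ 0 := by
  classical
  by_contra hpos
  push Not at hpos
  set L := ∑ v, w v with hL
  have h1 : L ^ (8 * k) = ∑ f : Fin (8 * k) → V, ∏ i, w (f i) := by
    have := Finset.prod_univ_sum (R := ℝ) (fun _ : Fin (8 * k) => (Finset.univ : Finset V))
      (fun _ v => w v)
    rw [Fintype.piFinset_univ] at this
    rw [← this, Finset.prod_const, Finset.card_univ, Fintype.card_fin]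
  have hprod : ∀ f : Fin (8 * k) → V, 0 ≤ ∏ i, w (f i) := fun f =>
    Finset.prod_nonneg fun i _ => hw _
  have h2 : ∑ f : Fin (8 * k) → V, ∏ i, w (f i) ≤
      ∑ f : Fin (8 * k) → V, ∑ τ ∈ (Finset.univ : Finset (Fin (8 * k) → Fin 3)).filter
          (fun τ => 3 * k ≤ Fintype.card {i // ¬ (τ i ≠ 2)}),
        (if ∀ i : {i // ¬ (τ i ≠ 2)}, f i ∈ U τ (fun j => f j) then ∏ i, w (f i) else 0) := by
    refine Finset.sum_le_sum fun f _ => ?_
    obtain ⟨τ, hτ1, hτ2⟩ := hcov f
    have := Finset.single_le_sum (s := (Finset.univ : Finset (Fin (8 * k) → Fin 3)).filter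
          (fun τ => 3 * k ≤ Fintype.card {i // ¬ (τ i ≠ 2)}))
      (f := fun τ => (if ∀ i : {i // ¬ (τ i ≠ 2)}, f i ∈ U τ (fun j => f j)
        then ∏ i, w (f i) else 0))
      (fun τ _ => by
        show (0 : ℝ) ≤ if _ then _ else _
        split_ifs
        · exact hprod f
        · exact le_refl _)
      (Finset.mem_filter.2 ⟨Finset.mem_univ τ, hτ1⟩)
    refine le_trans ?_ this
    show _ ≤ (if _ then _ else _)
    rw [if_pos hτ2]
  rw [Finset.sum_comm] at h2
  have h3 : ∀ τ ∈ (Finset.univ : Finset (Fin (8 * k) → Fin 3)).filter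
          (fun τ => 3 * k ≤ Fintype.card {i // ¬ (τ i ≠ 2)}),
      ∑ f : Fin (8 * k) → V,
        (if ∀ i : {i // ¬ (τ i ≠ 2)}, f i ∈ U τ (fun j => f j) then ∏ i, w (f i) else 0)
      ≤ L ^ (8 * k) * (1 / 20) ^ (3 * k) := by
    intro τ hτ
    have hτ1 := (Finset.mem_filter.1 hτ).2
    have hb := fiber_bound w hw (fun i => τ i ≠ 2) (U τ) (L / 20) (hU τ)
    refine hb.trans ?_
    have hcard : Fintype.card {i // τ i ≠ 2} + Fintype.card {i // ¬ (τ i ≠ 2)} = 8 * k := by
      have := Fintype.card_subtype_compl (fun i => τ i ≠ 2)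
      have h4 : Fintype.card {i // τ i ≠ 2} ≤ Fintype.card (Fin (8 * k)) :=
        Fintype.card_subtype_le _
      rw [Fintype.card_fin] at this h4
      omega
    rw [div_eq_mul_one_div L 20, mul_pow, ← mul_assoc, ← pow_add, hcard]
    refine mul_le_mul_of_nonneg_left ?_ (pow_nonneg hpos.le _)
    exact pow_le_pow_of_le_one (by norm_num) (by norm_num) hτ1
  have h5 : L ^ (8 * k) ≤ (3 : ℝ) ^ (8 * k) * (L ^ (8 * k) * (1 / 20) ^ (3 * k)) := by
    calc L ^ (8 * k) = ∑ f : Fin (8 * k) → V, ∏ i, w (f i) := h1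
      _ ≤ _ := h2
      _ ≤ ∑ τ ∈ (Finset.univ : Finset (Fin (8 * k) → Fin 3)).filter
          (fun τ => 3 * k ≤ Fintype.card {i // ¬ (τ i ≠ 2)}), L ^ (8 * k) * (1 / 20) ^ (3 * k) :=
        Finset.sum_le_sum h3
      _ ≤ ∑ τ : Fin (8 * k) → Fin 3, L ^ (8 * k) * (1 / 20) ^ (3 * k) :=
        Finset.sum_le_sum_of_subset_of_nonneg (Finset.filter_subset _ _)
          (fun _ _ _ => by positivity)
      _ = (3 : ℝ) ^ (8 * k) * (L ^ (8 * k) * (1 / 20) ^ (3 * k)) := by
        rw [Finset.sum_const, Finset.card_univ, Fintype.card_fun, Fintype.card_fin,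
          Fintype.card_fin, nsmul_eq_mul]
        push_cast
        ring
  have h6 : (3 : ℝ) ^ (8 * k) * (L ^ (8 * k) * (1 / 20) ^ (3 * k))
      = L ^ (8 * k) * (6561 / 8000 : ℝ) ^ k := by
    have : (6561 / 8000 : ℝ) = 3 ^ 8 * (1 / 20) ^ 3 := by norm_num
    rw [this, mul_pow, ← pow_mul, ← pow_mul]
    ring
  rw [h6] at h5
  have h7 : (6561 / 8000 : ℝ) ^ k < 1 := pow_lt_one₀ (by norm_num) (by norm_num) hk.ne'
  have h8 : 0 < L ^ (8 * k) := pow_pos hpos _
  nlinarith

end Pool.Agent.Work.MP_918ecd_co
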