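import Pool.Agent.Work.MP_918ecd_co.Count

namespace Pool.Agent.Work.MP_918ecd_co

open Finset

variable {α : Type*} [DecidableEq α]

/-- Every vertex set `X` has a 2-colouring in which each edge with more than `N` points in `X`
has points of both colours in `X`. -/
def Good (N : ℕ) (V : Finset α) (E : Finset (Finset α)) : Prop :=
  ∀ X ⊆ V, ∃ c : α → Bool, ∀ e ∈ E, N < (e ∩ X).card → ∀ b : Bool, ∃ v ∈ e ∩ X, c v = b

lemma Good.mono {N : ℕ} {V V' : Finset α} {E E' : Finset (Finset α)} (h : Good N V E)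
    (hV : V' ⊆ V) (hE : ∀ e' ∈ E', ∃ e ∈ E, ∀ X ⊆ V', e' ∩ X = e ∩ X) : Good N V' E' := by
  intro X hX
  obtain ⟨c, hc⟩ := h X (hX.trans hV)
  refine ⟨c, fun e' he' hcard b => ?_⟩
  obtain ⟨e, he, hee⟩ := hE e' he'
  rw [hee X hX] at hcard ⊢
  exact hc e he hcard b

/-- The conclusion of the main theorem. -/
def Concl (N : ℕ) (V : Finset α) (E : Finset (Finset α)) (w : α → ℝ) (δ : ℝ) : Prop :=
  ∃ T ⊆ V, (T.card : ℝ) * δ ≤ 25600 * N * ∑ v ∈ V, w v ∧
    ∀ e ∈ E, δ ≤ ∑ v ∈ e, w v → (e ∩ T).Nonempty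

/-- Greedy cover. -/
lemma cover (V : Finset α) (E : Finset (Finset α)) (w : α → ℝ) (hw : ∀ v ∈ V, 0 ≤ w v)
    (hE : ∀ e ∈ E, e ⊆ V) (a b : ℝ) (ha : 0 < a)
    (h : ∀ W ⊆ V, b ≤ ∑ v ∈ W, w v → ∃ e ∈ E, a < ∑ v ∈ e ∩ W, w v) :
    ∃ S ⊆ E, (S.card : ℝ) * a ≤ ∑ v ∈ V, w v ∧ ∑ v ∈ V \ S.biUnion id, w v < b := by
  classical
  set P := E.powerset.filter (fun S => (S.card : ℝ) * a ≤ ∑ v ∈ S.biUnion id, w v) with hP
  have hne : P.Nonempty := ⟨∅, by simp [hP]⟩
  obtain ⟨S, hS, hmax⟩ := Finset.exists_max_image P Finset.card hne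
  rw [hP, Finset.mem_filter, Finset.mem_powerset] at hS
  have hSV : S.biUnion id ⊆ V := by
    intro v hv
    obtain ⟨e, he, hve⟩ := Finset.mem_biUnion.1 hv
    exact hE e (hS.1 he) hve
  refine ⟨S, hS.1, hS.2.trans (Finset.sum_le_sum_of_subset_of_nonneg hSV
    fun v hv _ => hw v hv), ?_⟩
  by_contra hcon
  push Not at hcon
  obtain ⟨e, he, hea⟩ := h _ Finset.sdiff_subset hcon
  have heS : e ∉ S := by
    intro heS
    have : e ∩ (V \ S.biUnion id) = ∅ := by
      ext v
      simp only [Finset.mem_inter, Finset.mem_sdiff, Finset.mem_biUnion, id, Finset.notMem_empty,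
        iff_false, not_and, not_not]
      exact fun hve _ => ⟨e, heS, hve⟩
    rw [this, Finset.sum_empty] at hea
    exact absurd hea (not_lt.2 ha.le)
  have hmem : insert e S ∈ P := by
    rw [hP, Finset.mem_filter, Finset.mem_powerset]
    refine ⟨Finset.insert_subset he hS.1, ?_⟩
    rw [Finset.card_insert_of_notMem heS, Finset.biUnion_insert]
    have hdis : Disjoint (S.biUnion id) (e ∩ (V \ S.biUnion id)) := by
      rw [Finset.disjoint_left]
      intro v hv hv'
      exact (Finset.mem_sdiff.1 (Finset.mem_inter.1 hv').2).2 hv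
    have hunion : id e ∪ S.biUnion id = S.biUnion id ∪ (e ∩ (V \ S.biUnion id)) := by
      ext v
      simp only [id, Finset.mem_union, Finset.mem_inter, Finset.mem_sdiff]
      constructor
      · rintro (hv | hv)
        · by_cases h' : v ∈ S.biUnion id
          · exact Or.inl h'
          · exact Or.inr ⟨hv, hE e he hv, h'⟩
        · exact Or.inl hv
      · rintro (hv | hv)
        · exact Or.inr hv
        · exact Or.inl hv.1
    rw [hunion, Finset.sum_union hdis]
    push_cast
    have := hS.2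
    nlinarith
  have := hmax _ hmem
  rw [Finset.card_insert_of_notMem heS] at this
  omega

/-- The step without heavy vertices. -/
lemma step (N : ℕ) (hN : 1 ≤ N) (w : α → ℝ) (n : ℕ)
    (ih : ∀ (V : Finset α) (E : Finset (Finset α)) (δ : ℝ), 0 < δ → (∀ v ∈ V, 0 ≤ w v) →
      (∀ e ∈ E, e ⊆ V) → Good N V E → (∑ v ∈ V, w v) * (79 / 80) ^ n < δ → Concl N V E w δ)
    (V : Finset α) (E : Finset (Finset α)) (δ : ℝ) (hδ : 0 < δ) (hw : ∀ v ∈ V, 0 ≤ w v)
    (hE : ∀ e ∈ E, e ⊆ V) (hG : Good N V E) (hL : (∑ v ∈ V, w v) * (79 / 80) ^ (n + 1) < δ)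
    (hlight : ∀ v ∈ V, w v * (3200 * N) ≤ δ) : Concl N V E w δ := by
  classical
  by_contra hno
  set L := ∑ v ∈ V, w v with hLdef
  have hN' : (1 : ℝ) ≤ N := by exact_mod_cast hN
  have hsub : ∀ A B : Finset α, A ⊆ B → B ⊆ V → ∑ v ∈ A, w v ≤ ∑ v ∈ B, w v :=
    fun A B hAB hBV => Finset.sum_le_sum_of_subset_of_nonneg hAB fun v hv _ => hw v (hBV hv)
  have hL0 : 0 ≤ L := Finset.sum_nonneg hw
  -- a heavy edge exists
  have hδL : δ ≤ L := by
    by_contra hlt
    push Not at hlt
    refine hno ⟨∅, Finset.empty_subset _, ?_, fun e he hde => ?_⟩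
    · simp only [Finset.card_empty, Nat.cast_zero, zero_mul]
      positivity
    · exact absurd (hde.trans (hsub e V (hE e he) (Finset.Subset.refl _))) (not_le.2 hlt)
  have hLpos : 0 < L := hδ.trans_le hδL
  -- richness
  have star : ∀ B ⊆ V, (B.card : ℝ) * δ ≤ 320 * N * L → ∀ W ⊆ V, L / 40 ≤ ∑ v ∈ W, w v →
      ∃ e ∈ E.filter (fun e => e ∩ B = ∅ ∧ δ ≤ ∑ v ∈ e, w v), δ / 80 < ∑ v ∈ e ∩ W, w v := by
    intro B hB hBc W hW hWl
    by_contra hcon
    push Not at hcon
    set E' := (E.filter (fun e => e ∩ B = ∅ ∧ δ ≤ ∑ v ∈ e, w v)).image (fun e => e \ W) with hE'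
    have hE'V : ∀ e ∈ E', e ⊆ V \ W := by
      intro e he
      obtain ⟨e0, he0, rfl⟩ := Finset.mem_image.1 he
      exact Finset.sdiff_subset_sdiff (hE e0 (Finset.mem_filter.1 he0).1) (Finset.Subset.refl _)
    have hG' : Good N (V \ W) E' := by
      refine hG.mono Finset.sdiff_subset fun e he => ?_
      obtain ⟨e0, he0, rfl⟩ := Finset.mem_image.1 he
      refine ⟨e0, (Finset.mem_filter.1 he0).1, fun X hX => ?_⟩
      ext v
      simp only [Finset.mem_inter, Finset.mem_sdiff]
      constructor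
      · rintro ⟨⟨h1, _⟩, h3⟩
        exact ⟨h1, h3⟩
      · rintro ⟨h1, h3⟩
        exact ⟨⟨h1, (Finset.mem_sdiff.1 (hX h3)).2⟩, h3⟩
    have hsplit : ∑ v ∈ V \ W, w v = L - ∑ v ∈ W, w v := by
      have := Finset.sum_sdiff (f := w) hW
      linarith
    have hsum : ∑ v ∈ V \ W, w v ≤ (79 / 80) ^ 2 * L := by
      rw [hsplit]
      nlinarith
    have hsmall : (∑ v ∈ V \ W, w v) * (79 / 80) ^ n < 79 / 80 * δ := by
      have hp : (0 : ℝ) < (79 / 80) ^ n := by positivity
      calc (∑ v ∈ V \ W, w v) * (79 / 80) ^ n ≤ ((79 / 80) ^ 2 * L) * (79 / 80) ^ n :=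
            mul_le_mul_of_nonneg_right hsum hp.le
        _ = 79 / 80 * (L * (79 / 80) ^ (n + 1)) := by ring
        _ < 79 / 80 * δ := by
            exact mul_lt_mul_of_pos_left hL (by norm_num)
    obtain ⟨T, hTV, hTc, hTh⟩ := ih (V \ W) E' (79 / 80 * δ) (by positivity)
      (fun v hv => hw v (Finset.mem_sdiff.1 hv).1) hE'V hG' hsmall
    refine hno ⟨B ∪ T, Finset.union_subset hB (hTV.trans Finset.sdiff_subset), ?_, ?_⟩
    · have h1 : ((B ∪ T).card : ℝ) ≤ B.card + T.card := by exact_mod_cast Finset.card_union_le B T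
      have h2 : (T.card : ℝ) * δ ≤ 25600 * N * (79 / 80) * L := by
        have h3 : (T.card : ℝ) * (79 / 80 * δ) ≤ 25600 * N * ((79 / 80) ^ 2 * L) := by
          refine hTc.trans ?_
          exact mul_le_mul_of_nonneg_left hsum (by positivity)
        nlinarith
      calc ((B ∪ T).card : ℝ) * δ ≤ (B.card + T.card) * δ :=
            mul_le_mul_of_nonneg_right h1 hδ.le
        _ = B.card * δ + T.card * δ := by ring
        _ ≤ 320 * N * L + 25600 * N * (79 / 80) * L := add_le_add hBc h2
        _ = 25600 * N * L := by ring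
    · intro e he hde
      by_cases heB : e ∩ B = ∅
      · have hmem : e ∈ E.filter (fun e => e ∩ B = ∅ ∧ δ ≤ ∑ v ∈ e, w v) :=
          Finset.mem_filter.2 ⟨he, heB, hde⟩
        have hle := hcon e hmem
        have hdec : ∑ v ∈ e \ W, w v + ∑ v ∈ e ∩ W, w v = ∑ v ∈ e, w v := by
          rw [add_comm]
          exact Finset.sum_inter_add_sum_sdiff e W w
        obtain ⟨v, hv⟩ := hTh (e \ W) (Finset.mem_image.2 ⟨e, hmem, rfl⟩) (by linarith)
        rw [Finset.mem_inter, Finset.mem_sdiff] at hv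
        exact ⟨v, Finset.mem_inter.2 ⟨hv.1.1, Finset.mem_union_right _ hv.2⟩⟩
      · obtain ⟨v, hv⟩ := Finset.nonempty_iff_ne_empty.2 heB
        rw [Finset.mem_inter] at hv
        exact ⟨v, Finset.mem_inter.2 ⟨hv.1, Finset.mem_union_left _ hv.2⟩⟩
  -- covers
  have cov : ∀ B : Finset α, ∃ S ⊆ E, (B ⊆ V → (B.card : ℝ) * δ ≤ 320 * N * L →
      (∀ e ∈ S, e ∩ B = ∅) ∧ (S.card : ℝ) * (δ / 80) ≤ L ∧
        ∑ v ∈ V \ S.biUnion id, w v < L / 40) := by
    intro B
    by_cases hB : B ⊆ V ∧ (B.card : ℝ) * δ ≤ 320 * N * L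
    · obtain ⟨S, hS, h1, h2⟩ := cover V (E.filter (fun e => e ∩ B = ∅ ∧ δ ≤ ∑ v ∈ e, w v)) w hw
        (fun e he => hE e (Finset.mem_filter.1 he).1) (δ / 80) (L / 40) (by positivity)
        (star B hB.1 hB.2)
      exact ⟨S, hS.trans (Finset.filter_subset _ _), fun _ _ =>
        ⟨fun e he => (Finset.mem_filter.1 (hS he)).2.1, h1, h2⟩⟩
    · exact ⟨∅, Finset.empty_subset _, fun h1 h2 => absurd ⟨h1, h2⟩ hB⟩
  choose S hSE hS using cov
  -- parameters
  set m := ⌊80 * L / δ⌋₊ with hm
  have hmle : (m : ℝ) * δ ≤ 80 * L := by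
    have h1 : (m : ℝ) ≤ 80 * L / δ := Nat.floor_le (by positivity)
    rwa [le_div_iff₀ hδ] at h1
  have hm1 : 1 ≤ m := by
    rw [hm, Nat.one_le_floor_iff, one_le_div hδ]
    linarith
  set k := N * m with hk
  have hk0 : 0 < k := Nat.mul_pos hN hm1
  have hkδ : (k : ℝ) * δ ≤ 80 * N * L := by
    rw [hk]
    push_cast
    nlinarith
  -- the light sets
  let Bs : (τ : Fin (8 * k) → Fin 3) → ({i // τ i ≠ 2} → {v // v ∈ V}) → Finset α :=
    fun τ g => ((Finset.univ : Finset {i // τ i ≠ 2}).filter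
      (fun i : {i // τ i ≠ 2} => τ i.1 = 0)).image (fun i => (g i).1)
  let Ds : (τ : Fin (8 * k) → Fin 3) → ({i // τ i ≠ 2} → {v // v ∈ V}) → Finset {v // v ∈ V} :=
    fun τ g => ((Finset.univ : Finset {i // τ i ≠ 2}).filter
      (fun i : {i // τ i ≠ 2} => τ i.1 = 1)).image g
  let U : (τ : Fin (8 * k) → Fin 3) → ({i // τ i ≠ 2} → {v // v ∈ V}) → Finset {v // v ∈ V} :=
    fun τ g => if (Bs τ g).card ≤ 4 * k ∧ (Ds τ g).card ≤ k then
      (Finset.univ.filter (fun v : {v // v ∈ V} => v.1 ∉ (S (Bs τ g)).biUnion id)) ∪ Ds τ g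
      else ∅
  have hBcard : ∀ B : Finset α, B.card ≤ 4 * k → (B.card : ℝ) * δ ≤ 320 * N * L := by
    intro B hB
    have h1 : (B.card : ℝ) ≤ 4 * k := by exact_mod_cast hB
    nlinarith
  have hsumV : ∑ v : {v // v ∈ V}, w v.1 = L := by
    rw [hLdef]
    exact Finset.sum_coe_sort V w
  have hfinal := count_contra (V := {v // v ∈ V}) (fun v => w v.1) (fun v => hw v.1 v.2) k hk0 U
    (by
      intro τ g
      rw [hsumV]
      show ∑ v ∈ (if (Bs τ g).card ≤ 4 * k ∧ (Ds τ g).card ≤ k then
        (Finset.univ.filter (fun v : {v // v ∈ V} => v.1 ∉ (S (Bs τ g)).biUnion id)) ∪ Ds τ g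
        else ∅), w v.1 ≤ L / 20
      split_ifs with hc
      · have hBV : Bs τ g ⊆ V := by
          intro v hv
          obtain ⟨i, _, rfl⟩ := Finset.mem_image.1 hv
          exact (g i).2
        obtain ⟨_, _, h3⟩ := hS (Bs τ g) hBV (hBcard _ hc.1)
        have h4 : ∑ v ∈ (Finset.univ.filter
            (fun v : {v // v ∈ V} => v.1 ∉ (S (Bs τ g)).biUnion id)), w v.1
            = ∑ v ∈ V \ (S (Bs τ g)).biUnion id, w v := by
          rw [Finset.sum_filter, Finset.sum_coe_sort V
            (fun v => if v ∉ (S (Bs τ g)).biUnion id then w v else 0), ← Finset.sum_filter]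
          refine Finset.sum_congr ?_ fun _ _ => rfl
          ext v
          simp [Finset.mem_filter, Finset.mem_sdiff]
        have h5 : ∑ v ∈ Ds τ g, w v.1 ≤ L / 40 := by
          have h6 : ∑ v ∈ Ds τ g, w v.1 * (3200 * N) ≤ ∑ v ∈ Ds τ g, δ :=
            Finset.sum_le_sum fun v _ => hlight v.1 v.2
          rw [← Finset.sum_mul, Finset.sum_const, nsmul_eq_mul] at h6
          have h7 : ((Ds τ g).card : ℝ) ≤ k := by exact_mod_cast hc.2
          have h8 : ((Ds τ g).card : ℝ) * δ ≤ 80 * N * L :=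
            (mul_le_mul_of_nonneg_right h7 hδ.le).trans hkδ
          have h9 : (∑ v ∈ Ds τ g, w v.1) * (3200 * N) ≤ (L / 40) * (3200 * N) := by
            calc (∑ v ∈ Ds τ g, w v.1) * (3200 * N) ≤ 80 * N * L := h6.trans h8
              _ = (L / 40) * (3200 * N) := by ring
          exact le_of_mul_le_mul_right h9 (by positivity)
        have h10 : ∑ v ∈ (Finset.univ.filter
            (fun v : {v // v ∈ V} => v.1 ∉ (S (Bs τ g)).biUnion id)) ∪ Ds τ g, w v.1
            ≤ ∑ v ∈ (Finset.univ.filter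
              (fun v : {v // v ∈ V} => v.1 ∉ (S (Bs τ g)).biUnion id)), w v.1
              + ∑ v ∈ Ds τ g, w v.1 := by
          rw [← Finset.sum_union_inter]
          exact le_add_of_nonneg_right (Finset.sum_nonneg fun v _ => hw v.1 v.2)
        linarith
      · rw [Finset.sum_empty]
        positivity)
    (by
      intro f
      set X : Finset α := Finset.univ.image (fun i => (f i).1) with hX
      have hXV : X ⊆ V := by
        intro v hv
        obtain ⟨i, _, rfl⟩ := Finset.mem_image.1 hv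
        exact (f i).2
      obtain ⟨c, hc⟩ := hG X hXV
      -- the minority colour
      obtain ⟨b, hb⟩ : ∃ b : Bool,
          (Finset.univ.filter (fun i : Fin (8 * k) => c (f i).1 = b)).card ≤ 4 * k := by
        by_contra hcon
        push Not at hcon
        have h1 := hcon true
        have h2 := hcon false
        have h3 := Finset.card_filter_add_card_filter_not (s := (Finset.univ : Finset (Fin (8 * k))))
          (fun i => c (f i).1 = true)
        have h4 : (Finset.univ.filter (fun i : Fin (8 * k) => ¬ c (f i).1 = true))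
            = (Finset.univ.filter (fun i : Fin (8 * k) => c (f i).1 = false)) := by
          ext i
          simp
        rw [h4, Finset.card_univ, Fintype.card_fin] at h3
        omega
      set Ib := Finset.univ.filter (fun i : Fin (8 * k) => c (f i).1 = b) with hIb
      set B : Finset α := Ib.image (fun i => (f i).1) with hB
      have hBV : B ⊆ V := by
        intro v hv
        obtain ⟨i, _, rfl⟩ := Finset.mem_image.1 hv
        exact (f i).2
      have hBc : B.card ≤ 4 * k := Finset.card_image_le.trans hb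
      obtain ⟨hS1, hS2, _⟩ := hS B hBV (hBcard B hBc)
      set Y := (S B).biUnion id with hY
      have hcolor : ∀ v ∈ Y ∩ X, c v ≠ b := by
        intro v hv hcv
        rw [Finset.mem_inter] at hv
        obtain ⟨e, he, hve⟩ := Finset.mem_biUnion.1 hv.1
        obtain ⟨i, _, rfl⟩ := Finset.mem_image.1 hv.2
        have : (f i).1 ∈ e ∩ B := Finset.mem_inter.2 ⟨hve, Finset.mem_image.2
          ⟨i, Finset.mem_filter.2 ⟨Finset.mem_univ _, hcv⟩, rfl⟩⟩
        rw [hS1 e he] at this
        exact absurd this (Finset.notMem_empty _)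
      have hYX : (Y ∩ X).card ≤ k := by
        have h1 : Y ∩ X ⊆ (S B).biUnion (fun e => e ∩ X) := by
          intro v hv
          rw [Finset.mem_inter] at hv
          obtain ⟨e, he, hve⟩ := Finset.mem_biUnion.1 hv.1
          exact Finset.mem_biUnion.2 ⟨e, he, Finset.mem_inter.2 ⟨hve, hv.2⟩⟩
        have h2 : ∀ e ∈ S B, (e ∩ X).card ≤ N := by
          intro e he
          by_contra hcon
          push Not at hcon
          obtain ⟨v, hv, hcv⟩ := hc e (hSE B he) hcon b
          rw [Finset.mem_inter] at hv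
          exact hcolor v (Finset.mem_inter.2 ⟨Finset.mem_biUnion.2 ⟨e, he, hv.1⟩, hv.2⟩) hcv
        have h3 : (S B).card ≤ m := by
          rw [hm]
          refine Nat.le_floor ?_
          rw [le_div_iff₀ hδ]
          linarith
        calc (Y ∩ X).card ≤ ((S B).biUnion (fun e => e ∩ X)).card := Finset.card_le_card h1
          _ ≤ (S B).card * N := Finset.card_biUnion_le_card_mul _ _ _ h2
          _ ≤ m * N := Nat.mul_le_mul_right _ h3
          _ = k := by rw [hk, mul_comm]
      -- one index for each point of Y ∩ X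
      have hidx : ∀ v : α, ∃ i : Fin (8 * k), v ∈ X → (f i).1 = v := by
        intro v
        by_cases hv : v ∈ X
        · obtain ⟨i, _, hi⟩ := Finset.mem_image.1 hv
          exact ⟨i, fun _ => hi⟩
        · exact ⟨⟨0, by omega⟩, fun h => absurd h hv⟩
      choose idx hidx' using hidx
      set J := (Y ∩ X).image idx with hJ
      have hJc : J.card ≤ k := Finset.card_image_le.trans hYX
      have hJb : ∀ i ∈ J, c (f i).1 ≠ b := by
        intro i hi
        obtain ⟨v, hv, rfl⟩ := Finset.mem_image.1 hi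
        rw [hidx' v (Finset.mem_inter.1 hv).2]
        exact hcolor v hv
      refine ⟨fun i => if c (f i).1 = b then 0 else if i ∈ J then 1 else 2, ?_, ?_⟩
      · have h1 : Fintype.card {i : Fin (8 * k) //
            ¬ ((if c (f i).1 = b then (0 : Fin 3) else if i ∈ J then 1 else 2) ≠ 2)}
            = (Finset.univ \ (Ib ∪ J)).card := by
          rw [Fintype.card_subtype]
          congr 1
          ext i
          simp only [Finset.mem_filter, Finset.mem_univ, true_and, Finset.mem_sdiff,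
            Finset.mem_union, hIb, not_or, not_not]
          by_cases h1 : c (f i).1 = b
          · simp [h1]
          · by_cases h2 : i ∈ J
            · simp [h1, h2]
            · simp [h1, h2]
        rw [h1, Finset.card_sdiff_of_subset (Finset.subset_univ _), Finset.card_univ,
          Fintype.card_fin]
        have h2 := Finset.card_union_le Ib J
        omega
      · intro i
        obtain ⟨i, hi⟩ := i
        have hi' : ¬ c (f i).1 = b ∧ i ∉ J := by
          by_cases h1 : c (f i).1 = b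
          · exfalso
            apply hi
            simp [h1]
          · by_cases h2 : i ∈ J
            · exfalso
              apply hi
              simp [h1, h2]
            · exact ⟨h1, h2⟩
        set τ : Fin (8 * k) → Fin 3 :=
          fun i => if c (f i).1 = b then 0 else if i ∈ J then 1 else 2 with hτ
        have hBs : Bs τ (fun j => f j) = B := by
          ext v
          constructor
          · intro hv
            obtain ⟨j, hj, rfl⟩ := Finset.mem_image.1 hv
            have hj' := (Finset.mem_filter.1 hj).2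
            refine Finset.mem_image.2 ⟨j.1, Finset.mem_filter.2 ⟨Finset.mem_univ _, ?_⟩, rfl⟩
            by_contra hcon
            have : τ j.1 = if j.1 ∈ J then 1 else 2 := by simp [hτ, hcon]
            rw [this] at hj'
            split_ifs at hj'
            · exact absurd hj' (by decide)
            · exact absurd hj' (by decide)
          · intro hv
            obtain ⟨j, hj, rfl⟩ := Finset.mem_image.1 hv
            have hj' := (Finset.mem_filter.1 hj).2
            have hτj : τ j = 0 := by simp [hτ, hj']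
            exact Finset.mem_image.2 ⟨⟨j, by rw [hτj]; decide⟩,
              Finset.mem_filter.2 ⟨Finset.mem_univ _, hτj⟩, rfl⟩
        have hDs : Ds τ (fun j => f j) ⊆ J.image f := by
          intro v hv
          obtain ⟨j, hj, rfl⟩ := Finset.mem_image.1 hv
          have hj' := (Finset.mem_filter.1 hj).2
          refine Finset.mem_image.2 ⟨j.1, ?_, rfl⟩
          by_contra hcon
          by_cases h1 : c (f j.1).1 = b
          · have : τ j.1 = 0 := by simp [hτ, h1]
            rw [this] at hj'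
            exact absurd hj' (by decide)
          · have : τ j.1 = 2 := by simp [hτ, h1, hcon]
            rw [this] at hj'
            exact absurd hj' (by decide)
        have hDs' : J.image f ⊆ Ds τ (fun j => f j) := by
          intro v hv
          obtain ⟨j, hj, rfl⟩ := Finset.mem_image.1 hv
          have hτj : τ j = 1 := by simp [hτ, hJb j hj, hj]
          exact Finset.mem_image.2 ⟨⟨j, by rw [hτj]; decide⟩,
            Finset.mem_filter.2 ⟨Finset.mem_univ _, hτj⟩, rfl⟩
        have hcond : (Bs τ (fun j => f j)).card ≤ 4 * k ∧ (Ds τ (fun j => f j)).card ≤ k := by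
          refine ⟨by rw [hBs]; exact hBc, ?_⟩
          exact (Finset.card_le_card hDs).trans (Finset.card_image_le.trans hJc)
        show f i ∈ (if (Bs τ (fun j => f j)).card ≤ 4 * k ∧ (Ds τ (fun j => f j)).card ≤ k then
          (Finset.univ.filter (fun v : {v // v ∈ V} =>
            v.1 ∉ (S (Bs τ (fun j => f j))).biUnion id)) ∪ Ds τ (fun j => f j)
          else ∅)
        rw [if_pos hcond, hBs, Finset.mem_union]
        by_cases hfi : (f i).1 ∈ Y
        · right
          apply hDs'
          have hfX : (f i).1 ∈ X := Finset.mem_image.2 ⟨i, Finset.mem_univ _, rfl⟩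
          refine Finset.mem_image.2 ⟨idx (f i).1, Finset.mem_image.2
            ⟨(f i).1, Finset.mem_inter.2 ⟨hfi, hfX⟩, rfl⟩, ?_⟩
          exact Subtype.ext (hidx' (f i).1 hfX)
        · left
          exact Finset.mem_filter.2 ⟨Finset.mem_univ _, hfi⟩)
  rw [hsumV] at hfinal
  linarith

/-- The main theorem for good hypergraphs. -/
theorem main (N : ℕ) (hN : 1 ≤ N) (w : α → ℝ) : ∀ (n : ℕ) (V : Finset α)
    (E : Finset (Finset α)) (δ : ℝ), 0 < δ → (∀ v ∈ V, 0 ≤ w v) →
      (∀ e ∈ E, e ⊆ V) → Good N V E → (∑ v ∈ V, w v) * (79 / 80) ^ n < δ → Concl N V E w δ := by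
  classical
  intro n
  induction n with
  | zero =>
    intro V E δ hδ hw hE _ hL
    rw [pow_zero, mul_one] at hL
    refine ⟨∅, Finset.empty_subset _, ?_, fun e he hde => ?_⟩
    · simp only [Finset.card_empty, Nat.cast_zero, zero_mul]
      have := Finset.sum_nonneg hw
      positivity
    · exact absurd (hde.trans (Finset.sum_le_sum_of_subset_of_nonneg (hE e he)
        fun v hv _ => hw v hv)) (not_le.2 hL)
  | succ n ih =>
    intro V E δ hδ hw hE hG hL
    have hN' : (1 : ℝ) ≤ N := by exact_mod_cast hN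
    set T0 := V.filter (fun v => δ < w v * (3200 * N)) with hT0
    set V1 := V \ T0 with hV1
    set E1 := E.filter (fun e => e ∩ T0 = ∅) with hE1
    have hT0V : T0 ⊆ V := Finset.filter_subset _ _
    have hE1V : ∀ e ∈ E1, e ⊆ V1 := by
      intro e he v hv
      rw [hE1, Finset.mem_filter] at he
      refine Finset.mem_sdiff.2 ⟨hE e he.1 hv, fun hv' => ?_⟩
      have : v ∈ e ∩ T0 := Finset.mem_inter.2 ⟨hv, hv'⟩
      rw [he.2] at this
      exact absurd this (Finset.notMem_empty _)
    have hsplit : ∑ v ∈ V1, w v + ∑ v ∈ T0, w v = ∑ v ∈ V, w v := Finset.sum_sdiff hT0V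
    have hT0n : 0 ≤ ∑ v ∈ T0, w v := Finset.sum_nonneg fun v hv => hw v (hT0V hv)
    have hG1 : Good N V1 E1 := hG.mono Finset.sdiff_subset
      fun e he => ⟨e, (Finset.mem_filter.1 he).1, fun X _ => rfl⟩
    have hL1 : (∑ v ∈ V1, w v) * (79 / 80) ^ (n + 1) < δ := by
      refine lt_of_le_of_lt (mul_le_mul_of_nonneg_right ?_ (by positivity)) hL
      linarith
    obtain ⟨T, hTV, hTc, hTh⟩ := step N hN w n ih V1 E1 δ hδ
      (fun v hv => hw v (Finset.mem_sdiff.1 hv).1) hE1V hG1 hL1 (by
        intro v hv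
        rw [hV1, Finset.mem_sdiff, hT0, Finset.mem_filter] at hv
        by_contra hcon
        push Not at hcon
        exact hv.2 ⟨hv.1, hcon⟩)
    refine ⟨T0 ∪ T, Finset.union_subset hT0V (hTV.trans Finset.sdiff_subset), ?_, ?_⟩
    · have h1 : ((T0 ∪ T).card : ℝ) ≤ T0.card + T.card := by exact_mod_cast Finset.card_union_le T0 T
      have h2 : (T0.card : ℝ) * δ ≤ (∑ v ∈ T0, w v) * (3200 * N) := by
        rw [Finset.sum_mul, ← nsmul_eq_mul, ← Finset.sum_const]
        exact Finset.sum_le_sum fun v hv => (Finset.mem_filter.1 hv).2.le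
      calc ((T0 ∪ T).card : ℝ) * δ ≤ (T0.card + T.card) * δ :=
            mul_le_mul_of_nonneg_right h1 hδ.le
        _ = T0.card * δ + T.card * δ := by ring
        _ ≤ (∑ v ∈ T0, w v) * (3200 * N) + 25600 * N * ∑ v ∈ V1, w v := add_le_add h2 hTc
        _ ≤ 25600 * N * ∑ v ∈ V, w v := by
            rw [← hsplit]
            nlinarith [mul_nonneg hT0n (by linarith : (0 : ℝ) ≤ N)]
    · intro e he hde
      by_cases heT : e ∩ T0 = ∅
      · obtain ⟨v, hv⟩ := hTh e (Finset.mem_filter.2 ⟨he, heT⟩) hde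
        rw [Finset.mem_inter] at hv
        exact ⟨v, Finset.mem_inter.2 ⟨hv.1, Finset.mem_union_right _ hv.2⟩⟩
      · obtain ⟨v, hv⟩ := Finset.nonempty_iff_ne_empty.2 heT
        rw [Finset.mem_inter] at hv
        exact ⟨v, Finset.mem_inter.2 ⟨hv.1, Finset.mem_union_left _ hv.2⟩⟩

theorem hitting (N : ℕ) (hN : 1 ≤ N) (w : α → ℝ) (V : Finset α) (E : Finset (Finset α)) (δ : ℝ)
    (hδ : 0 < δ) (hw : ∀ v ∈ V, 0 ≤ w v) (hE : ∀ e ∈ E, e ⊆ V) (hG : Good N V E) :
    Concl N V E w δ := by
  obtain ⟨n, hn⟩ : ∃ n : ℕ, (∑ v ∈ V, w v) * (79 / 80 : ℝ) ^ n < δ := by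
    have h0 : 0 ≤ ∑ v ∈ V, w v := Finset.sum_nonneg hw
    rcases h0.eq_or_lt with h | h
    · exact ⟨0, by rw [← h]; simpa using hδ⟩
    · obtain ⟨n, hn⟩ := exists_pow_lt_of_lt_one (div_pos hδ h) (by norm_num : (79 / 80 : ℝ) < 1)
      refine ⟨n, ?_⟩
      rw [lt_div_iff₀ h] at hn
      linarith
  exact main N hN w n V E δ hδ hw hE hG hn

end Pool.Agent.Work.MP_918ecd_co
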